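import Mathlib

/-!
# MP_69a01b_lc: the `m`-completion need not be a smallest `(J,M,m)`-extension

We construct a Boolean algebra `A` and a `σ`-regular extension `{i', B'}` of it (all existing
countable joins and meets are preserved) that is not above the `σ`-completion `{i, B}`.
-/

open TopologicalSpace Cardinal

namespace Pool.Agent.Results.MP_69a01b_lc.CompletionNotSmallest

/-- Boolean `m`-algebra: all sets of size `≤ m` have a join and a meet. -/
def IsMAlgebra (m : Cardinal.{0}) (B : Type) [BooleanAlgebra B] : Prop :=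
  ∀ S : Set B, #S ≤ m → (∃ a, IsLUB S a) ∧ ∃ a, IsGLB S a

/-- Homomorphism of Boolean algebras. -/
structure IsHom {A B : Type} [BooleanAlgebra A] [BooleanAlgebra B] (f : A → B) : Prop where
  map_compl : ∀ a, f aᶜ = (f a)ᶜ
  map_inf : ∀ a b, f (a ⊓ b) = f a ⊓ f b
  map_sup : ∀ a b, f (a ⊔ b) = f a ⊔ f b

/-- `m`-homomorphism: preserves joins and meets of size `≤ m`. -/
structure IsMHom (m : Cardinal.{0}) {A B : Type} [BooleanAlgebra A] [BooleanAlgebra B]
    (f : A → B) : Prop where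
  hom : IsHom f
  map_lub : ∀ S : Set A, #S ≤ m → ∀ a, IsLUB S a → IsLUB (f '' S) (f a)
  map_glb : ∀ S : Set A, #S ≤ m → ∀ a, IsGLB S a → IsGLB (f '' S) (f a)

/-- `G` generates `B` as a Boolean `m`-algebra. -/
def Generates (m : Cardinal.{0}) {B : Type} [BooleanAlgebra B] (G : Set B) : Prop :=
  ∀ S : Set B, G ⊆ S → (∀ a ∈ S, aᶜ ∈ S) →
    (∀ X : Set B, X ⊆ S → #X ≤ m → ∀ a, IsLUB X a → a ∈ S) → S = Set.univ

/-- `J` is a class of sets of size `≤ m` having a join and `M` one of sets of size `≤ m` having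
a meet. -/
def Admissible (m : Cardinal.{0}) {A : Type} [BooleanAlgebra A] (J M : Set (Set A)) : Prop :=
  (∀ S ∈ J, #S ≤ m ∧ ∃ a, IsLUB S a) ∧ ∀ S ∈ M, #S ≤ m ∧ ∃ a, IsGLB S a

/-- `{i, B}` is a `(J,M,m)`-extension of `A`. -/
structure IsExt (m : Cardinal.{0}) {A : Type} [BooleanAlgebra A] (J M : Set (Set A))
    (B : Type) [BooleanAlgebra B] (i : A → B) : Prop where
  alg : IsMAlgebra m B
  hom : IsHom i
  inj : Function.Injective i
  joins : ∀ S ∈ J, ∀ a, IsLUB S a → IsLUB (i '' S) (i a)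
  meets : ∀ S ∈ M, ∀ a, IsGLB S a → IsGLB (i '' S) (i a)
  gen : Generates m (Set.range i)

/-- `{i, B}` is an `m`-completion of `A`. -/
structure IsCompletion (m : Cardinal.{0}) {A : Type} [BooleanAlgebra A]
    (B : Type) [BooleanAlgebra B] (i : A → B) : Prop where
  alg : IsMAlgebra m B
  hom : IsHom i
  inj : Function.Injective i
  dense : ∀ b : B, b ≠ ⊥ → ∃ a : A, i a ≠ ⊥ ∧ i a ≤ b
  gen : Generates m (Set.range i)

/-! ### Order theory -/

section order

variable {R : Type} [BooleanAlgebra R]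

lemma isGLB_of_compl {S : Set R} {x : R} (h : IsLUB (compl '' S) x) : IsGLB S xᶜ := by
  constructor
  · intro s hs
    rw [compl_le_iff_compl_le]
    exact h.1 ⟨s, hs, rfl⟩
  · intro b hb
    rw [le_compl_comm]
    refine h.2 ?_
    rintro _ ⟨s, hs, rfl⟩
    exact compl_le_compl (hb hs)

lemma isLUB_compl_image {S : Set R} {x : R} (h : IsGLB S x) : IsLUB (compl '' S) xᶜ := by
  constructor
  · rintro _ ⟨s, hs, rfl⟩
    exact compl_le_compl (h.1 hs)
  · intro b hb
    rw [compl_le_iff_compl_le]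
    refine h.2 ?_
    intro s hs
    rw [compl_le_iff_compl_le]
    exact hb ⟨s, hs, rfl⟩

/-- carrier of the `m`-subalgebra generated by `G` -/
def mgenSet (m : Cardinal.{0}) (G : Set R) : Set R :=
  {a | ∀ S : Set R, G ⊆ S → (∀ x ∈ S, xᶜ ∈ S) →
    (∀ X : Set R, X ⊆ S → #X ≤ m → ∀ x, IsLUB X x → x ∈ S) → a ∈ S}

lemma mgen_compl {m : Cardinal.{0}} {G : Set R} {a : R} (ha : a ∈ mgenSet m G) :
    aᶜ ∈ mgenSet m G :=
  fun S h1 h2 h3 => h2 _ (ha S h1 h2 h3)

lemma mgen_lub {m : Cardinal.{0}} {G : Set R} {X : Set R} (hX : X ⊆ mgenSet m G)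
    (hm : #X ≤ m) {x : R} (hx : IsLUB X x) : x ∈ mgenSet m G :=
  fun S h1 h2 h3 => h3 X (fun _ hy => hX hy S h1 h2 h3) hm x hx

lemma mgen_sub {m : Cardinal.{0}} {G : Set R} : G ⊆ mgenSet m G :=
  fun _ ha _ h1 _ _ => h1 ha

/-- The `m`-subalgebra generated by `G`. -/
def mgen (m : Cardinal.{0}) (hm : ℵ₀ ≤ m) (G : Set R) : BooleanSubalgebra R where
  carrier := mgenSet m G
  supClosed' := by
    intro a ha b hb
    refine mgen_lub (X := {a, b}) ?_ ?_ isLUB_pair
    · intro x hx
      rcases hx with rfl | rfl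
      · exact ha
      · exact hb
    · exact ((Set.toFinite _).lt_aleph0.le).trans hm
  infClosed' := by
    intro a ha b hb
    have h : a ⊓ b = (aᶜ ⊔ bᶜ)ᶜ := by rw [compl_sup, compl_compl, compl_compl]
    rw [h]
    refine mgen_compl (mgen_lub (X := {aᶜ, bᶜ}) ?_ ?_ isLUB_pair)
    · intro x hx
      rcases hx with rfl | rfl
      · exact mgen_compl ha
      · exact mgen_compl hb
    · exact ((Set.toFinite _).lt_aleph0.le).trans hm
  compl_mem' := mgen_compl
  bot_mem' := by
    refine mgen_lub (X := ∅) (Set.empty_subset _) ?_ isLUB_empty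
    simp

variable {m : Cardinal.{0}} {hm : ℵ₀ ≤ m} {G : Set R}

lemma lub_of_coe {S : Set (mgen m hm G)} {a : mgen m hm G}
    (h : IsLUB ((fun x : mgen m hm G => (x : R)) '' S) (a : R)) : IsLUB S a := by
  constructor
  · intro s hs
    exact h.1 ⟨s, hs, rfl⟩
  · intro b hb
    refine h.2 ?_
    rintro _ ⟨s, hs, rfl⟩
    exact hb hs

lemma coe_of_lub (hR : ∀ S : Set R, ∃ a, IsLUB S a) {S : Set (mgen m hm G)} (hS : #S ≤ m)
    {a : mgen m hm G} (h : IsLUB S a) :
    IsLUB ((fun x : mgen m hm G => (x : R)) '' S) (a : R) := by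
  obtain ⟨x, hx⟩ := hR ((fun x : mgen m hm G => (x : R)) '' S)
  have hxm : x ∈ mgenSet m G := by
    refine mgen_lub ?_ (mk_image_le.trans hS) hx
    rintro _ ⟨s, -, rfl⟩
    exact s.2
  have h1 : IsLUB S (⟨x, hxm⟩ : mgen m hm G) := lub_of_coe hx
  have h2 : a = ⟨x, hxm⟩ := h.unique h1
  rw [h2]; exact hx

lemma mgen_alg (hR : ∀ S : Set R, ∃ a, IsLUB S a) : IsMAlgebra m (mgen m hm G) := by
  have hl : ∀ S : Set (mgen m hm G), #S ≤ m → ∃ a, IsLUB S a := by
    intro S hS
    obtain ⟨x, hx⟩ := hR ((fun x : mgen m hm G => (x : R)) '' S)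
    have hxm : x ∈ mgenSet m G := by
      refine mgen_lub ?_ (mk_image_le.trans hS) hx
      rintro _ ⟨s, -, rfl⟩
      exact s.2
    exact ⟨⟨x, hxm⟩, lub_of_coe hx⟩
  intro S hS
  refine ⟨hl S hS, ?_⟩
  obtain ⟨x, hx⟩ := hl (compl '' S) (mk_image_le.trans hS)
  exact ⟨xᶜ, isGLB_of_compl hx⟩

lemma mgen_generates (G' : Set (mgen m hm G))
    (hG : (fun x : mgen m hm G => (x : R)) '' G' = G) : Generates m G' := by
  intro S h1 h2 h3
  rw [Set.eq_univ_iff_forall]
  intro b
  have hb := b.2 {x : R | ∃ hx : x ∈ mgen m hm G, (⟨x, hx⟩ : mgen m hm G) ∈ S} ?_ ?_ ?_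
  · obtain ⟨hx, hS⟩ := hb
    exact hS
  · intro x hx
    rw [← hG] at hx
    obtain ⟨y, hy, rfl⟩ := hx
    exact ⟨y.2, h1 hy⟩
  · rintro x ⟨hx, hS⟩
    exact ⟨BooleanSubalgebra.compl_mem hx, h2 _ hS⟩
  · intro X hX hXm x hx
    have hxm : x ∈ mgen m hm G := mgen_lub (fun y hy => (hX hy).1) hXm hx
    refine ⟨hxm, ?_⟩
    set X' : Set (mgen m hm G) := {y | (y : R) ∈ X} with hX'
    have him : (fun x : mgen m hm G => (x : R)) '' X' = X := by
      ext y
      constructor
      · rintro ⟨z, hz, rfl⟩; exact hz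
      · intro hy; exact ⟨⟨y, (hX hy).1⟩, hy, rfl⟩
    refine h3 X' ?_ ?_ _ (lub_of_coe (by rw [him]; exact hx))
    · intro y hy
      obtain ⟨hx', hS⟩ := hX hy
      exact hS
    · have : #X' ≤ #X := by
        refine Cardinal.mk_le_of_injective (f := fun y : X' => (⟨(y : R), y.2⟩ : X)) ?_
        intro y z hyz
        have := congrArg (fun w : X => (w : R)) hyz
        exact Subtype.ext (Subtype.ext this)
      exact this.trans hXm

end order

/-! ### Regular open algebras -/

/-- The Boolean algebra of regular open subsets of `Z`. -/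
abbrev RO (Z : Type) [TopologicalSpace Z] : Type := Heyting.Regular (Opens Z)

section ro

variable {Z : Type} [TopologicalSpace Z]

lemma ro_lub (S : Set (RO Z)) :
    IsLUB S (Heyting.Regular.toRegular (sSup ((fun a : RO Z => (a : Opens Z)) '' S))) := by
  constructor
  · intro s hs
    rw [← Heyting.Regular.coe_le_coe]
    refine le_trans ?_ le_compl_compl
    exact le_sSup ⟨s, hs, rfl⟩
  · intro b hb
    refine (Heyting.Regular.gi.gc _ _).mpr ?_
    refine sSup_le ?_
    rintro _ ⟨s, hs, rfl⟩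
    exact hb hs

lemma exists_mem_of_ne_bot {a : RO Z} (ha : a ≠ ⊥) : ∃ z, z ∈ a.val := by
  by_contra h
  push Not at h
  apply ha
  apply Heyting.Regular.coe_injective
  ext z
  simp only [SetLike.mem_coe]
  constructor
  · intro hz; exact absurd hz (h z)
  · intro hz; exact absurd hz (by simp)

lemma ne_bot_of_mem {a : RO Z} {z : Z} (hz : z ∈ a.val) : a ≠ ⊥ := by
  rintro rfl
  have : z ∈ (⊥ : Opens Z) := hz
  simp at this

lemma compl_compl_sub (U : Opens Z) : ((Uᶜᶜ : Opens Z) : Set Z) ⊆ closure (U : Set Z) := by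
  rw [Opens.coe_compl_eq_interior_compl, Opens.coe_compl_eq_interior_compl]
  refine interior_subset.trans ?_
  rw [← closure_compl, compl_compl]

end ro



section more

variable {R : Type} [BooleanAlgebra R] {m : Cardinal.{0}} {hm : ℵ₀ ≤ m} {G : Set R}

lemma coe_of_glb (hR : ∀ S : Set R, ∃ a, IsLUB S a) {S : Set (mgen m hm G)} (hS : #S ≤ m)
    {a : mgen m hm G} (h : IsGLB S a) :
    IsGLB ((fun x : mgen m hm G => (x : R)) '' S) (a : R) := by
  have h1 := coe_of_lub hR (S := compl '' S) (mk_image_le.trans hS) (isLUB_compl_image h)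
  have h2 : (fun x : mgen m hm G => (x : R)) '' (compl '' S) =
      compl '' ((fun x : mgen m hm G => (x : R)) '' S) := by
    rw [← Set.image_comp, ← Set.image_comp]; rfl
  rw [h2] at h1
  have h3 := isGLB_of_compl h1
  rwa [BooleanSubalgebra.val_compl, compl_compl] at h3

/-- A clopen set as a regular open set. -/
def ofClopen {Z : Type} [TopologicalSpace Z] (s : Set Z) (hs : IsClopen s) : RO Z :=
  ⟨⟨s, hs.isOpen⟩, by
    rw [Heyting.IsRegular]
    apply SetLike.coe_injective
    rw [Opens.coe_compl_eq_interior_compl, Opens.coe_compl_eq_interior_compl]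
    change interior (interior sᶜ)ᶜ = s
    rw [hs.compl.isOpen.interior_eq, compl_compl, hs.isOpen.interior_eq]⟩

end more

/-! ### The example -/

/-- Labels: a finite set of natural numbers (a point of the countable dense set `F` of the Cantor
space) and a real number. Discrete topology. -/
structure D where
  q : Finset ℕ
  r : ℝ

instance : TopologicalSpace D := ⊥
instance : DiscreteTopology D := ⟨rfl⟩

/-- The point of the Cantor space given by a finite set. -/
def phi (s : Finset ℕ) (i : ℕ) : Bool := decide (i ∈ s)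

/-- Points of the Cantor space that are not finitely supported. -/
abbrev I : Type := {u : ℕ → Bool // ∀ s : Finset ℕ, ∃ i, u i ≠ phi s i}

/-- Sequences of labels. -/
abbrev Z : Type := ℕ → D

/-- `(k,u,z)` stands for the sequence `z` with `k`-th entry replaced by `u`. -/
abbrev Y : Type := ℕ × I × Z

/-- The Boolean algebra `A`. -/
def goodAlg : BooleanSubalgebra (Set Z × Set Y) where
  carrier := {a | IsClopen a.1 ∧ IsClopen a.2 ∧
    (∀ k u z d, (k, u, z) ∈ a.2 ↔ (k, u, Function.update z k d) ∈ a.2) ∧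
    ∀ k, ∃ S : Set D, S.Countable ∧ ∀ y : Z, y k ∉ S → ∃ n, ∀ u : I,
      (∀ i < n, u.1 i = phi (y k).q i) → (y ∈ a.1 ↔ (k, u, y) ∈ a.2)}
  supClosed' := by
    rintro a ⟨h1, h2, h3, h4⟩ b ⟨g1, g2, g3, g4⟩
    refine ⟨h1.union g1, h2.union g2, fun k u z d => or_congr (h3 k u z d) (g3 k u z d),
      fun k => ?_⟩
    obtain ⟨S, hS, hS'⟩ := h4 k
    obtain ⟨S2, hS2, hS2'⟩ := g4 k
    refine ⟨S ∪ S2, hS.union hS2, fun y hy => ?_⟩
    obtain ⟨n, hn⟩ := hS' y (fun h => hy (Or.inl h))
    obtain ⟨n2, hn2⟩ := hS2' y (fun h => hy (Or.inr h))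
    exact ⟨max n n2, fun u hu => or_congr
      (hn u fun i hi => hu i (lt_of_lt_of_le hi (le_max_left _ _)))
      (hn2 u fun i hi => hu i (lt_of_lt_of_le hi (le_max_right _ _)))⟩
  infClosed' := by
    rintro a ⟨h1, h2, h3, h4⟩ b ⟨g1, g2, g3, g4⟩
    refine ⟨h1.inter g1, h2.inter g2, fun k u z d => and_congr (h3 k u z d) (g3 k u z d),
      fun k => ?_⟩
    obtain ⟨S, hS, hS'⟩ := h4 k
    obtain ⟨S2, hS2, hS2'⟩ := g4 k
    refine ⟨S ∪ S2, hS.union hS2, fun y hy => ?_⟩
    obtain ⟨n, hn⟩ := hS' y (fun h => hy (Or.inl h))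
    obtain ⟨n2, hn2⟩ := hS2' y (fun h => hy (Or.inr h))
    exact ⟨max n n2, fun u hu => and_congr
      (hn u fun i hi => hu i (lt_of_lt_of_le hi (le_max_left _ _)))
      (hn2 u fun i hi => hu i (lt_of_lt_of_le hi (le_max_right _ _)))⟩
  compl_mem' := by
    rintro a ⟨h1, h2, h3, h4⟩
    refine ⟨h1.compl, h2.compl, fun k u z d => not_congr (h3 k u z d), fun k => ?_⟩
    obtain ⟨S, hS, hS'⟩ := h4 k
    refine ⟨S, hS, fun y hy => ?_⟩
    obtain ⟨n, hn⟩ := hS' y hy
    exact ⟨n, fun u hu => not_congr (hn u hu)⟩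
  bot_mem' := by
    refine ⟨isClopen_empty, isClopen_empty, fun k u z d => Iff.rfl, fun k => ?_⟩
    exact ⟨∅, Set.countable_empty, fun y _ => ⟨0, fun u _ => Iff.rfl⟩⟩

/-- The Boolean algebra `A`. -/
abbrev A : Type := goodAlg

/-- Embedding into the regular open algebra of `Z`. -/
def iZ (a : A) : RO Z := ofClopen a.1.1 a.2.1

/-- Embedding into the regular open algebra of `Y`. -/
def iY (a : A) : RO Y := ofClopen a.1.2 a.2.2.1

lemma mem_iZ {a : A} {y : Z} : y ∈ (iZ a).val ↔ y ∈ a.1.1 := Iff.rfl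
lemma mem_iY {a : A} {y : Y} : y ∈ (iY a).val ↔ y ∈ a.1.2 := Iff.rfl

/-! approximation lemmas -/

lemma exists_u (q : Finset ℕ) (n : ℕ) : ∃ u : I, ∀ i < n, u.1 i = phi q i := by
  refine ⟨⟨fun i => if i < n then phi q i else true, fun s => ?_⟩, fun i hi => if_pos hi⟩
  refine ⟨n + s.sup id + 1, ?_⟩
  have h1 : ¬ (n + s.sup id + 1 < n) := by omega
  have h2 : n + s.sup id + 1 ∉ s := by
    intro h
    have := Finset.le_sup (f := id) h
    simp only [id] at this
    omega
  simp [h1, phi, h2]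

lemma exists_q (u : I) (n : ℕ) : ∃ q : Finset ℕ, ∀ i < n, phi q i = u.1 i := by
  refine ⟨(Finset.range n).filter (fun i => u.1 i = true), fun i hi => ?_⟩
  unfold phi
  cases h : u.1 i <;> simp [h, hi]

lemma exists_r (q : Finset ℕ) {S : Set D} (hS : S.Countable) : ∃ r : ℝ, (⟨q, r⟩ : D) ∉ S := by
  by_contra h
  push Not at h
  have h1 : (Set.univ : Set ℝ) ⊆ (fun r : ℝ => (⟨q, r⟩ : D)) ⁻¹' S := fun r _ => h r
  have h2 : ((fun r : ℝ => (⟨q, r⟩ : D)) ⁻¹' S).Countable := by
    refine hS.preimage_of_injOn ?_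
    intro a _ b _ hab
    exact congrArg D.r hab
  exact Set.not_countable_univ (h2.mono h1)

lemma nbPi {E : ℕ → Type} [∀ n, TopologicalSpace (E n)] [∀ n, DiscreteTopology (E n)]
    {O : Set (∀ n, E n)} (hO : IsOpen O) {x : ∀ n, E n} (hx : x ∈ O) :
    ∃ n, ∀ y : ∀ n, E n, (∀ i < n, y i = x i) → y ∈ O := by
  obtain ⟨_, ⟨y, n, rfl⟩, hxy, hsub⟩ :=
    (PiNat.isTopologicalBasis_cylinders E).exists_subset_of_mem_open hx hO
  refine ⟨n, fun z hz => hsub ?_⟩
  rw [PiNat.mem_cylinder_iff] at hxy ⊢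
  intro i hi
  rw [hz i hi, hxy i hi]

lemma nbY {O : Set Y} (hO : IsOpen O) {k : ℕ} {u : I} {z : Z} (h : (k, u, z) ∈ O) :
    ∃ n, ∀ (u' : I) (z' : Z), (∀ i < n, u'.1 i = u.1 i) → (∀ i < n, z' i = z i) →
      (k, u', z') ∈ O := by
  have h1 : IsOpen {p : I × Z | (k, p) ∈ O} := hO.preimage (Continuous.prodMk_right k)
  rw [isOpen_prod_iff] at h1
  obtain ⟨U, V, hU, hV, hu, hz, hUV⟩ := h1 u z h
  obtain ⟨U', hU', rfl⟩ := isOpen_induced_iff.mp hU
  obtain ⟨n, hn⟩ := nbPi hU' hu
  obtain ⟨n', hn'⟩ := nbPi hV hz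
  refine ⟨max n n', fun u' z' h2 h3 => hUV (Set.mk_mem_prod ?_ ?_)⟩
  · exact hn _ fun i hi => h2 i (lt_of_lt_of_le hi (le_max_left _ _))
  · exact hn' _ fun i hi => h3 i (lt_of_lt_of_le hi (le_max_right _ _))

/-- If the `Z`-part of `a` is empty then `a = ⊥`. -/
lemma eq_bot_of_Z {a : A} (h : a.1.1 = ∅) : a = ⊥ := by
  have h2 : a.1.2 = ∅ := by
    rw [Set.eq_empty_iff_forall_notMem]
    rintro ⟨k, u, z⟩ hmem
    obtain ⟨n, hn⟩ := nbY a.2.2.1.isOpen hmem
    obtain ⟨S, hS, hS'⟩ := a.2.2.2.2 k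
    obtain ⟨q, hq⟩ := exists_q u n
    obtain ⟨r, hr⟩ := exists_r q hS
    set y : Z := Function.update z k ⟨q, r⟩ with hy
    have hyk : y k = ⟨q, r⟩ := Function.update_self ..
    obtain ⟨n1, hn1⟩ := hS' y (by rw [hyk]; exact hr)
    obtain ⟨u', hu'⟩ := exists_u q (max n n1)
    have h3 := hn u' z (fun i hi => by
      rw [hu' i (lt_of_lt_of_le hi (le_max_left _ _)), hq i hi]) (fun i _ => rfl)
    have h4 : (k, u', y) ∈ a.1.2 := (a.2.2.2.1 k u' z ⟨q, r⟩).mp h3
    have h5 := (hn1 u' (fun i hi => by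
      rw [hyk, hu' i (lt_of_lt_of_le hi (le_max_right _ _))])).mpr h4
    rw [h] at h5
    exact h5
  exact Subtype.ext (Prod.ext h h2)

/-- If the `Y`-part of `a` is empty then `a = ⊥`. -/
lemma eq_bot_of_Y {a : A} (h : a.1.2 = ∅) : a = ⊥ := by
  have h2 : a.1.1 = ∅ := by
    rw [Set.eq_empty_iff_forall_notMem]
    intro y hmem
    obtain ⟨k, hk⟩ := nbPi a.2.1.isOpen hmem
    obtain ⟨S, hS, hS'⟩ := a.2.2.2.2 k
    obtain ⟨r, hr⟩ := exists_r ∅ hS
    set y' : Z := Function.update y k ⟨∅, r⟩ with hy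
    have hyk : y' k = ⟨∅, r⟩ := Function.update_self ..
    have h3 : y' ∈ a.1.1 := hk _ fun i hi => Function.update_of_ne hi.ne _ _
    obtain ⟨n, hn⟩ := hS' y' (by rw [hyk]; exact hr)
    obtain ⟨u, hu⟩ := exists_u ∅ n
    have h4 := (hn u (fun i hi => by rw [hyk, hu i hi])).mp h3
    rw [h] at h4
    exact h4
  exact Subtype.ext (Prod.ext h2 h)

lemma hom_iZ : IsHom iZ := by
  refine ⟨fun a => ?_, fun a b => ?_, fun a b => ?_⟩
  · apply Heyting.Regular.coe_injective
    apply SetLike.coe_injective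
    rw [Heyting.Regular.coe_compl, Opens.coe_compl_eq_interior_compl]
    exact (a.2.1.compl.isOpen.interior_eq).symm
  · apply Heyting.Regular.coe_injective
    rfl
  · apply Heyting.Regular.coe_injective
    apply SetLike.coe_injective
    rw [Heyting.Regular.coe_sup]
    exact (congrArg (fun w : RO Z => ((w : Opens Z) : Set Z))
      (Heyting.Regular.toRegular_coe (iZ (a ⊔ b)))).symm


lemma hom_iY : IsHom iY := by
  refine ⟨fun a => ?_, fun a b => ?_, fun a b => ?_⟩
  · apply Heyting.Regular.coe_injective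
    apply SetLike.coe_injective
    rw [Heyting.Regular.coe_compl, Opens.coe_compl_eq_interior_compl]
    exact (a.2.2.1.compl.isOpen.interior_eq).symm
  · apply Heyting.Regular.coe_injective
    rfl
  · apply Heyting.Regular.coe_injective
    apply SetLike.coe_injective
    rw [Heyting.Regular.coe_sup]
    exact (congrArg (fun w : RO Y => ((w : Opens Y) : Set Y))
      (Heyting.Regular.toRegular_coe (iY (a ⊔ b)))).symm

lemma le_of_Z {a b : A} (h : a.1.1 ⊆ b.1.1) : a ≤ b := by
  have h1 : a ⊓ bᶜ = ⊥ := by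
    apply eq_bot_of_Z
    change a.1.1 ∩ b.1.1ᶜ = ∅
    rw [Set.eq_empty_iff_forall_notMem]
    rintro y ⟨hy1, hy2⟩
    exact hy2 (h hy1)
  have h2 := disjoint_iff.mpr h1
  rwa [disjoint_compl_right_iff] at h2

lemma le_of_Y {a b : A} (h : a.1.2 ⊆ b.1.2) : a ≤ b := by
  have h1 : a ⊓ bᶜ = ⊥ := by
    apply eq_bot_of_Y
    change a.1.2 ∩ b.1.2ᶜ = ∅
    rw [Set.eq_empty_iff_forall_notMem]
    rintro y ⟨hy1, hy2⟩
    exact hy2 (h hy1)
  have h2 := disjoint_iff.mpr h1
  rwa [disjoint_compl_right_iff] at h2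

lemma inj_iZ : Function.Injective iZ := by
  intro a b hab
  have h : a.1.1 = b.1.1 := congrArg (fun x : RO Z => ((x : Opens Z) : Set Z)) hab
  exact le_antisymm (le_of_Z h.le) (le_of_Z h.ge)

lemma inj_iY : Function.Injective iY := by
  intro a b hab
  have h : a.1.2 = b.1.2 := congrArg (fun x : RO Y => ((x : Opens Y) : Set Y)) hab
  exact le_antisymm (le_of_Y h.le) (le_of_Y h.ge)

/-- The cylinder of length `m` around `y`, as an element of `A`. -/
def cyl (y : Z) (m : ℕ) : A :=
  ⟨({y' | ∀ j < m, y' j = y j}, {w | m ≤ w.1 ∧ ∀ j < m, w.2.2 j = y j}), by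
    have hc : ∀ m : ℕ, IsClopen {y' : Z | ∀ j < m, y' j = y j} := by
      intro m
      have h : {y' : Z | ∀ j < m, y' j = y j} = ⋂ j ∈ Finset.range m, {y' : Z | y' j = y j} := by
        ext y'; simp
      rw [h]
      refine isClopen_biInter_finset fun j _ => ?_
      exact (isClopen_discrete ({y j} : Set D)).preimage (continuous_apply j)
    refine ⟨hc m, ?_, ?_, ?_⟩
    · exact ((isClopen_discrete {k : ℕ | m ≤ k}).preimage continuous_fst).inter
        ((hc m).preimage (continuous_snd.comp continuous_snd))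
    · intro k u z d
      change (m ≤ k ∧ ∀ j < m, z j = y j) ↔ (m ≤ k ∧ ∀ j < m, Function.update z k d j = y j)
      refine and_congr_right fun hmk => ?_
      refine forall₂_congr fun j hj => ?_
      rw [Function.update_of_ne (by omega)]
    · intro k
      by_cases hk : m ≤ k
      · refine ⟨∅, Set.countable_empty, fun y' _ => ⟨0, fun u _ => ?_⟩⟩
        change (∀ j < m, y' j = y j) ↔ (m ≤ k ∧ ∀ j < m, y' j = y j)
        exact ⟨fun h => ⟨hk, h⟩, fun h => h.2⟩
      · refine ⟨{y k}, Set.countable_singleton _, fun y' hy' => ⟨0, fun u _ => ?_⟩⟩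
        change (∀ j < m, y' j = y j) ↔ (m ≤ k ∧ ∀ j < m, y' j = y j)
        exact ⟨fun h => absurd (h k (by omega)) hy', fun h => absurd h.1 hk⟩⟩

lemma self_mem_cyl (y : Z) (m : ℕ) : y ∈ (cyl y m).1.1 := fun _ _ => rfl

lemma cyl_ne (y : Z) (m : ℕ) : cyl y m ≠ ⊥ := by
  intro h
  have := self_mem_cyl y m
  rw [h] at this
  exact this

/-- The second embedding preserves all existing joins of countable sets. -/
lemma iY_lub (S : Set A) (hS : S.Countable) (a : A) (h : IsLUB S a) :
    IsLUB (iY '' S) (iY a) := by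
  constructor
  · rintro _ ⟨s, hs, rfl⟩
    exact (h.1 hs).2
  · intro e he
    by_contra hne
    have h1 : iY a ⊓ eᶜ ≠ ⊥ := by
      intro h1
      have h2 := disjoint_iff.mpr h1
      rw [disjoint_compl_right_iff] at h2
      exact hne h2
    obtain ⟨⟨k, u, z⟩, hz⟩ := exists_mem_of_ne_bot h1
    have hO : IsOpen (((iY a ⊓ eᶜ : RO Y).val : Opens Y) : Set Y) := (iY a ⊓ eᶜ : RO Y).val.isOpen
    obtain ⟨n, hn⟩ := nbY hO hz
    obtain ⟨q, hq⟩ := exists_q u n
    choose Sk hSk hSk' using fun b : A => b.2.2.2.2 k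
    obtain ⟨r, hr⟩ := exists_r q ((hSk a).union (hS.biUnion (t := fun s _ => Sk s)
      (fun s _ => hSk s)))
    set d : D := ⟨q, r⟩ with hd
    set y : Z := Function.update z k d with hy
    set m := max n (k + 1) with hm
    have hyk : y k = d := Function.update_self ..
    have hnm : n ≤ m := le_max_left _ _
    have hkm : k < m := lt_of_lt_of_le (Nat.lt_succ_self k) (le_max_right _ _)
    -- key claim for points of the cylinder
    have key : ∀ y' : Z, (∀ j < m, y' j = y j) → ∀ b : A, d ∉ Sk b →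
        ∃ u' : I, (k, u', Function.update y' k (z k)) ∈ (((iY a ⊓ eᶜ : RO Y).val : Opens Y) : Set Y) ∧
          (y' ∈ b.1.1 ↔ (k, u', Function.update y' k (z k)) ∈ b.1.2) := by
      intro y' hy' b hb
      have hy'k : y' k = d := by rw [hy' k hkm, hyk]
      obtain ⟨n1, hn1⟩ := hSk' b y' (by rw [hy'k]; exact hb)
      obtain ⟨u', hu'⟩ := exists_u q (max n n1)
      refine ⟨u', hn u' _ ?_ ?_, ?_⟩
      · intro i hi
        rw [hu' i (lt_of_lt_of_le hi (le_max_left _ _)), hq i hi]
      · intro i hi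
        by_cases hik : i = k
        · subst hik; rw [Function.update_self]
        · rw [Function.update_of_ne hik, hy' i (lt_of_lt_of_le hi hnm), hy,
            Function.update_of_ne hik]
      · rw [← b.2.2.2.1 k u' y' (z k)]
        refine hn1 u' fun i hi => ?_
        rw [hy'k, hu' i (lt_of_lt_of_le hi (le_max_right _ _))]
    have hda : d ∉ Sk a := fun h => hr (Or.inl h)
    have hba : cyl y m ≤ a := by
      apply le_of_Z
      intro y' hy'
      obtain ⟨u', hu1, hu2⟩ := key y' hy' a hda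
      exact hu2.mpr hu1.1
    have hbs : ∀ s ∈ S, s ≤ (cyl y m)ᶜ := by
      intro s hs
      apply le_of_Z
      intro y' hy's hy'
      have hds : d ∉ Sk s := fun h => hr (Or.inr (Set.mem_biUnion hs h))
      obtain ⟨u', hu1, hu2⟩ := key y' hy' s hds
      have h3 : (k, u', Function.update y' k (z k)) ∈ s.1.2 := hu2.mp hy's
      have h4 : (k, u', Function.update y' k (z k)) ∈ (e : RO Y).val := he ⟨s, hs, rfl⟩ h3
      have h5 : (k, u', Function.update y' k (z k)) ∈ ((e ⊓ eᶜ : RO Y)).val := ⟨h4, hu1.2⟩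
      have h6 : (e ⊓ eᶜ : RO Y) = ⊥ := inf_compl_eq_bot
      exact ne_bot_of_mem h5 h6
    have h6 : a ≤ (cyl y m)ᶜ := h.2 hbs
    have h7 : cyl y m ≤ (cyl y m)ᶜ := hba.trans h6
    have h8 : cyl y m = ⊥ := by
      have := le_inf le_rfl h7
      rw [inf_compl_eq_bot] at this
      exact le_bot_iff.mp this
    exact cyl_ne y m h8

/-! ### The two extensions -/

/-- The `σ`-completion. -/
abbrev B : Type := mgen (R := RO Z) ℵ₀ le_rfl (Set.range iZ)

/-- The other extension. -/
abbrev B' : Type := mgen (R := RO Y) ℵ₀ le_rfl (Set.range iY)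

/-- Embedding in the completion. -/
def i (a : A) : B := ⟨iZ a, mgen_sub ⟨a, rfl⟩⟩

/-- Embedding in the other extension. -/
def i' (a : A) : B' := ⟨iY a, mgen_sub ⟨a, rfl⟩⟩

lemma hom_i : IsHom i :=
  ⟨fun a => Subtype.ext (hom_iZ.map_compl a), fun a b => Subtype.ext (hom_iZ.map_inf a b),
    fun a b => Subtype.ext (hom_iZ.map_sup a b)⟩

lemma hom_i' : IsHom i' :=
  ⟨fun a => Subtype.ext (hom_iY.map_compl a), fun a b => Subtype.ext (hom_iY.map_inf a b),
    fun a b => Subtype.ext (hom_iY.map_sup a b)⟩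

lemma inj_i : Function.Injective i := fun _ _ h =>
  inj_iZ (congrArg (fun x : B => (x : RO Z)) h)

lemma inj_i' : Function.Injective i' := fun _ _ h =>
  inj_iY (congrArg (fun x : B' => (x : RO Y)) h)

lemma countable_of {X : Type} {S : Set X} (h : #S ≤ ℵ₀) : S.Countable :=
  Cardinal.le_aleph0_iff_set_countable.mp h

lemma i'_lub (S : Set A) (hS : #S ≤ ℵ₀) (a : A) (h : IsLUB S a) : IsLUB (i' '' S) (i' a) := by
  apply lub_of_coe
  rw [← Set.image_comp]
  exact iY_lub S (countable_of hS) a h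

lemma i'_glb (S : Set A) (hS : #S ≤ ℵ₀) (a : A) (h : IsGLB S a) : IsGLB (i' '' S) (i' a) := by
  have h1 := i'_lub (compl '' S) (mk_image_le.trans hS) aᶜ (isLUB_compl_image h)
  have h2 : i' '' (compl '' S) = compl '' (i' '' S) := by
    rw [← Set.image_comp, ← Set.image_comp]
    exact Set.image_congr fun x _ => hom_i'.map_compl x
  rw [h2] at h1
  have h3 := isGLB_of_compl h1
  rwa [hom_i'.map_compl, compl_compl] at h3

lemma hRZ : ∀ S : Set (RO Z), ∃ a, IsLUB S a := fun S => ⟨_, ro_lub S⟩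
lemma hRY : ∀ S : Set (RO Y), ∃ a, IsLUB S a := fun S => ⟨_, ro_lub S⟩

theorem completion : IsCompletion ℵ₀ B i where
  alg := mgen_alg hRZ
  hom := hom_i
  inj := inj_i
  dense := by
    intro b hb
    have hb' : (b : RO Z) ≠ ⊥ := fun h => hb (Subtype.ext h)
    obtain ⟨y, hy⟩ := exists_mem_of_ne_bot hb'
    obtain ⟨n, hn⟩ := nbPi (b : RO Z).val.isOpen hy
    refine ⟨cyl y n, ?_, ?_⟩
    · intro h
      have : i (cyl y n) = i ⊥ := by
        rw [h]; exact Subtype.ext rfl
      exact cyl_ne y n (inj_i this)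
    · intro y' hy'
      exact hn y' hy'
  gen := by
    refine mgen_generates _ ?_
    rw [← Set.range_comp]; rfl

theorem extension (J M : Set (Set A)) (h : Admissible ℵ₀ J M) : IsExt ℵ₀ J M B' i' where
  alg := mgen_alg hRY
  hom := hom_i'
  inj := inj_i'
  joins := fun S hS a ha => i'_lub S (h.1 S hS).1 a ha
  meets := fun S hS a ha => i'_glb S (h.2 S hS).1 a ha
  gen := by
    refine mgen_generates _ ?_
    rw [← Set.range_comp]; rfl

/-- The element `the j-th bit of the k-th coordinate is 1`. -/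
def bit (k j : ℕ) : A :=
  ⟨({y | phi (y k).q j = true}, {w | if w.1 = k then w.2.1.1 j = true else
      phi (w.2.2 k).q j = true}), by
    refine ⟨?_, ?_, ?_, ?_⟩
    · exact (isClopen_discrete {d : D | phi d.q j = true}).preimage (continuous_apply k)
    · have h : {w : Y | if w.1 = k then w.2.1.1 j = true else phi (w.2.2 k).q j = true} =
          ({w : Y | w.1 = k} ∩ {w : Y | w.2.1.1 j = true}) ∪
          ({w : Y | w.1 = k}ᶜ ∩ {w : Y | phi (w.2.2 k).q j = true}) := by
        ext w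
        by_cases hw : w.1 = k <;> simp [hw]
      change IsClopen {w : Y | if w.1 = k then w.2.1.1 j = true else phi (w.2.2 k).q j = true}
      rw [h]
      have h1 : IsClopen {w : Y | w.1 = k} :=
        (isClopen_discrete ({k} : Set ℕ)).preimage continuous_fst
      have h2 : IsClopen {w : Y | w.2.1.1 j = true} := by
        have hc : Continuous (fun w : Y => w.2.1.1 j) :=
          (continuous_apply j).comp (continuous_subtype_val.comp
            (continuous_fst.comp continuous_snd))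
        exact (isClopen_discrete ({true} : Set Bool)).preimage hc
      have h3 : IsClopen {w : Y | phi (w.2.2 k).q j = true} := by
        have hc : Continuous (fun w : Y => w.2.2 k) :=
          (continuous_apply k).comp (continuous_snd.comp continuous_snd)
        exact (isClopen_discrete {d : D | phi d.q j = true}).preimage hc
      exact (h1.inter h2).union (h1.compl.inter h3)
    · intro l u z d
      change (if l = k then u.1 j = true else phi (z k).q j = true) ↔
        (if l = k then u.1 j = true else phi (Function.update z l d k).q j = true)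
      by_cases hl : l = k
      · simp [hl]
      · rw [if_neg hl, if_neg hl, Function.update_of_ne (Ne.symm hl)]
    · intro l
      refine ⟨∅, Set.countable_empty, fun y _ => ⟨j + 1, fun u hu => ?_⟩⟩
      change phi (y k).q j = true ↔ (if l = k then u.1 j = true else phi (y k).q j = true)
      by_cases hl : l = k
      · subst hl
        rw [if_pos rfl, hu j (Nat.lt_succ_self j)]
      · rw [if_neg hl]⟩

/-- `w k q j` says that the `j`-th bit of the `k`-th coordinate is that of `q`. -/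
def wbit (k : ℕ) (q : Finset ℕ) (j : ℕ) : A := if j ∈ q then bit k j else (bit k j)ᶜ

lemma mem_wbit_Z {k : ℕ} {q : Finset ℕ} {j : ℕ} {y : Z} (h : (y k).q = q) :
    y ∈ (wbit k q j).1.1 := by
  unfold wbit
  split_ifs with hj
  · change phi (y k).q j = true
    rw [h]; simp [phi, hj]
  · change ¬ (phi (y k).q j = true)
    rw [h]; simp [phi, hj]

lemma mem_wbit_Y {k : ℕ} {q : Finset ℕ} {j : ℕ} {u : I} {z : Z}
    (h : (k, u, z) ∈ (wbit k q j).1.2) : u.1 j = phi q j := by
  unfold wbit at h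
  split_ifs at h with hj
  · change (if k = k then u.1 j = true else phi (z k).q j = true) at h
    rw [if_pos rfl] at h
    rw [h]; simp [phi, hj]
  · change ¬ (if k = k then u.1 j = true else phi (z k).q j = true) at h
    rw [if_pos rfl] at h
    simp only [Bool.not_eq_true] at h
    rw [h]; simp [phi, hj]

theorem no_hom (h : B' → B) (hh : IsMHom ℵ₀ h) (hcomp : ∀ a, h (i' a) = i a) : False := by
  have hcard : ∀ {ι X : Type} [Countable ι] (f : ι → X), #(Set.range f) ≤ ℵ₀ := fun f =>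
    Cardinal.le_aleph0_iff_set_countable.mpr (Set.countable_range f)
  have halg' : IsMAlgebra ℵ₀ B' := mgen_alg hRY
  -- the meets `E k q`
  choose E hE using fun (k : ℕ) (q : Finset ℕ) =>
    (halg' (Set.range fun j => i' (wbit k q j)) (hcard _)).2
  choose N hN using fun (k : ℕ) => (halg' (Set.range fun q => (E k q)ᶜ) (hcard _)).2
  -- computation in B'
  have hslice : ∀ k (u : I) (z : Z), (k, u, z) ∈ (N k : RO Y).val := by
    intro k u z
    have hN' := coe_of_glb hRY (hcard _) (hN k)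
    have hcl : IsClopen {w : Y | w.1 = k} :=
      (isClopen_discrete ({k} : Set ℕ)).preimage continuous_fst
    have h1 : ofClopen {w : Y | w.1 = k} hcl ≤ (N k : RO Y) := by
      refine hN'.2 ?_
      rintro _ ⟨_, ⟨q, rfl⟩, rfl⟩
      have hE' := coe_of_glb hRY (hcard _) (hE k q)
      have h2 : Disjoint (ofClopen {w : Y | w.1 = k} hcl) (E k q : RO Y) := by
        rw [disjoint_iff]
        by_contra hne
        obtain ⟨⟨k', u', z'⟩, hk', hz'⟩ := exists_mem_of_ne_bot hne
        change k' = k at hk'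
        subst hk'
        obtain ⟨j, hj⟩ := u'.2 q
        have h3 : (E k' q : RO Y) ≤ iY (wbit k' q j) := hE'.1 ⟨i' (wbit k' q j), ⟨j, rfl⟩, rfl⟩
        exact hj (mem_wbit_Y (h3 hz'))
      exact le_compl_iff_disjoint_right.mpr h2
    exact h1 (show k = k from rfl)
  have htop : IsLUB (Set.range N) ⊤ := by
    refine ⟨fun _ _ => le_top, fun c hc => ?_⟩
    rintro ⟨k, u, z⟩ -
    exact hc ⟨k, rfl⟩ (hslice k u z)
  -- computation in B
  have hNbot : ∀ k, h (N k) = ⊥ := by
    intro k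
    have h1 := hh.map_glb _ (hcard _) _ (hN k)
    by_contra hne
    have hne' : ((h (N k) : B) : RO Z) ≠ ⊥ := fun h => hne (Subtype.ext h)
    obtain ⟨y, hy⟩ := exists_mem_of_ne_bot hne'
    set q := (y k).q with hq
    have h2 : h (N k) ≤ h (E k q)ᶜ := h1.1 ⟨_, ⟨q, rfl⟩, rfl⟩
    rw [hh.hom.map_compl] at h2
    have h3 := hh.map_glb _ (hcard _) _ (hE k q)
    have h4 : i (cyl y (k + 1)) ≤ h (E k q) := by
      refine h3.2 ?_
      rintro _ ⟨_, ⟨j, rfl⟩, rfl⟩
      rw [hcomp]
      intro y' hy'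
      refine mem_wbit_Z ?_
      have : y' k = y k := hy' k (Nat.lt_succ_self k)
      rw [this]
    have h5 : y ∈ ((h (E k q) : B) : RO Z).val := h4 (self_mem_cyl y (k + 1))
    have h6 : y ∈ (((h (E k q))ᶜ : B) : RO Z).val := h2 hy
    have h7 : y ∈ (((h (E k q) ⊓ (h (E k q))ᶜ : B)) : RO Z).val := ⟨h5, h6⟩
    rw [inf_compl_eq_bot] at h7
    exact ne_bot_of_mem h7 rfl
  have h1 := hh.map_lub _ (hcard _) _ htop
  have h2 : h '' Set.range N = {⊥} := by
    rw [← Set.range_comp]
    ext w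
    simp only [Set.mem_range, Function.comp, hNbot, Set.mem_singleton_iff]
    constructor
    · rintro ⟨_, rfl⟩; rfl
    · rintro rfl; exact ⟨0, rfl⟩
  rw [h2] at h1
  have h3 : h ⊤ = ⊥ := h1.unique isLUB_singleton
  have h4 := hh.map_glb ∅ (by simp) ⊤ isGLB_empty
  rw [Set.image_empty] at h4
  have h5 : h ⊤ = ⊤ := h4.unique isGLB_empty
  rw [h3] at h5
  have h6 : (fun _ => ⟨∅, 0⟩ : Z) ∈ (((⊤ : B)) : RO Z).val := trivial
  rw [← h5] at h6
  exact ne_bot_of_mem h6 rfl

/-- Q1 of MP_69a01b_lc. -/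
def Q1 : Prop :=
  ∀ (m : Cardinal.{0}), ℵ₀ ≤ m → ∀ (A : Type) [BooleanAlgebra A] (J M : Set (Set A)),
    Admissible m J M → ∀ (B : Type) [BooleanAlgebra B] (i : A → B), IsCompletion m B i →
    ∀ (B' : Type) [BooleanAlgebra B'] (i' : A → B'), IsExt m J M B' i' →
      ∃ h : B' → B, IsMHom m h ∧ ∀ a, h (i' a) = i a

/-- **Answer to Q1 (negative).** There is a Boolean algebra `A` with a `σ`-completion `{i,B}` and
one pair `{i',B'}` that is a `(J,M,ℵ₀)`-extension of `A` for all admissible classes `J`, `M` at once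
(in particular for the largest ones, all countable sets with a join resp. a meet), such that no
`ℵ₀`-homomorphism `h : B' → B` satisfies `i = h ∘ i'`. -/
theorem result : ¬ Q1 ∧
    ∃ (A : Type) (_ : BooleanAlgebra A) (B : Type) (_ : BooleanAlgebra B) (i : A → B)
      (B' : Type) (_ : BooleanAlgebra B') (i' : A → B'),
      IsCompletion ℵ₀ B i ∧ (∀ J M : Set (Set A), Admissible ℵ₀ J M → IsExt ℵ₀ J M B' i') ∧
      ¬ ∃ h : B' → B, IsMHom ℵ₀ h ∧ ∀ a, h (i' a) = i a := by
  have hno : ¬ ∃ h : B' → B, IsMHom ℵ₀ h ∧ ∀ a, h (i' a) = i a := by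
    rintro ⟨h, hh, hc⟩
    exact no_hom h hh hc
  refine ⟨fun hQ => hno ?_, A, inferInstance, B, inferInstance, i, B', inferInstance, i',
    completion, extension, hno⟩
  have hadm : Admissible ℵ₀ (∅ : Set (Set A)) (∅ : Set (Set A)) :=
    ⟨fun S hS => absurd hS (Set.notMem_empty S), fun S hS => absurd hS (Set.notMem_empty S)⟩
  exact hQ ℵ₀ le_rfl A ∅ ∅ hadm B i completion B' i' (extension ∅ ∅ hadm)

end Pool.Agent.Results.MP_69a01b_lc.CompletionNotSmallest
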